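import Pool.Agent.P8H90.Tp.T6

/-! If some nonprincipal ultrafilter on the natural numbers has a base of aleph one sets and some
dominating family has aleph one members (in particular under CH), then there is a Tychonoff Lindelöf
totally paracompact space with aleph one points which is not Menger. -/

namespace Pool.Agent.Results.MP_a4b8ee_gt.SmallUltrafilterBase

open Set Filter TopologicalSpace Cardinal

/-- every open base contains a locally finite cover -/
def TotallyParacompact (X : Type) [TopologicalSpace X] : Prop :=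
  ∀ B : Set (Set X), IsTopologicalBasis B →
    ∃ F : Set (Set X), F ⊆ B ∧ LocallyFinite (fun s : F => (s : Set X)) ∧ ⋃₀ F = Set.univ

/-- the Menger property -/
def Menger (X : Type) [TopologicalSpace X] : Prop :=
  ∀ U : ℕ → Set (Set X), (∀ n, ∀ s ∈ U n, IsOpen s) → (∀ n, ⋃₀ U n = Set.univ) →
    ∃ A : ℕ → Set (Set X), (∀ n, A n ⊆ U n ∧ (A n).Finite) ∧ (⋃ n, ⋃₀ A n) = Set.univ

/-- some nonprincipal ultrafilter on the natural numbers has a base of at most aleph one sets -/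
def SmallUltrafilter : Prop :=
  ∃ U : Ultrafilter ℕ, (U : Filter ℕ) ≤ cofinite ∧ ∃ B : Set (Set ℕ), #B ≤ ℵ_ 1 ∧
    ∀ s ∈ U, ∃ b ∈ B, b ∈ U ∧ b ⊆ s

/-- some dominating family has at most aleph one members -/
def SmallDominating : Prop :=
  ∃ D : Set (ℕ → ℕ), #D ≤ ℵ_ 1 ∧ ∀ f : ℕ → ℕ, ∃ g ∈ D, ∀ᶠ n in atTop, f n ≤ g n

theorem result :
    ((2 : Cardinal.{0}) ^ ℵ₀ = ℵ_ 1 → SmallUltrafilter ∧ SmallDominating) ∧
    (SmallUltrafilter → SmallDominating →
      ∃ (X : Type) (_ : TopologicalSpace X), #X = ℵ_ 1 ∧ T35Space X ∧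
        IsTopologicalBasis {s : Set X | IsClopen s} ∧ LindelofSpace X ∧ TotallyParacompact X ∧
        ¬ Menger X) := by
  refine ⟨fun h => Pool.Agent.P8H90.Tp.of_CH h, fun hu hd => ?_⟩
  obtain ⟨_, X, x0, x1, x2⟩ := Pool.Agent.P8H90.Tp.exists_X hu hd
  have tp : Pool.Agent.P8H90.Tp.TP (Pool.Agent.P8H90.Tp.Z X) :=
    fun B hB => Pool.Agent.P8H90.Tp.tp x1 x2 hB
  have hL := Pool.Agent.P8H90.Tp.lindelof tp
  have hT : T35Space (Pool.Agent.P8H90.Tp.Z X) := Pool.Agent.P8H90.Tp.t35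
  have hc := Pool.Agent.P8H90.Tp.closed_a (X := X)
  have hM := Pool.Agent.P8H90.Tp.notM x1
  refine ⟨range (Pool.Agent.P8H90.Tp.a : X → Pool.Agent.P8H90.Tp.Z X), inferInstance,
    Pool.Agent.P8H90.Tp.card_of_notM hM (mk_range_le.trans x0), inferInstance, ?_, ?_,
    Pool.Agent.P8H90.Tp.tp_closed tp hc, fun h => hM fun U hU => ?_⟩
  · refine isTopologicalBasis_of_isOpen_of_nhds (fun s hs => hs.isOpen) fun y W hy hW => ?_
    obtain ⟨O, o1, rfl⟩ := isOpen_induced_iff.1 hW
    obtain ⟨s, s1, s2, s3⟩ := Pool.Agent.P8H90.Tp.basis.exists_subset_of_mem_open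
      (show y.1 ∈ O from hy) o1
    exact ⟨_, (s1 : IsClopen s).preimage continuous_subtype_val, s2, fun z hz => s3 hz⟩
  · exact hc.isClosedEmbedding_subtypeVal.LindelofSpace
  · exact h U (fun n => (hU n).1) fun n => (hU n).2

end Pool.Agent.Results.MP_a4b8ee_gt.SmallUltrafilterBase
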